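import Pool.Agent.Helper87.VM.Lib2

set_option autoImplicit false

namespace Pool.Agent.Helper87.VM

open MvPolynomial Pool.Agent.Helper48.VMRT

section

variable {κ : Type} [Fintype κ]

/-- differentials of several polynomials -/
noncomputable def lb_J {r : ℕ} (p : Fin r → MvPolynomial κ ℂ) (x : κ → ℂ) :
    (κ → ℂ) →ₗ[ℂ] (Fin r → ℂ) := LinearMap.pi (fun a => dpolL (p a) x)

theorem lb_J_apply {r : ℕ} (p : Fin r → MvPolynomial κ ℂ) (x v : κ → ℂ) (a : Fin r) :
    lb_J p x v a = dpol (p a) x v := rfl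

theorem lb_surj {r : ℕ} (p : Fin r → MvPolynomial κ ℂ) (x : κ → ℂ)
    (h : LinearIndependent ℂ (fun a => dpolL (p a) x)) : Function.Surjective (lb_J p x) := by
  classical
  rw [← LinearMap.range_eq_top]
  by_contra hne
  have hlt : LinearMap.range (lb_J p x) < ⊤ := lt_top_iff_ne_top.2 hne
  obtain ⟨f, hf, hf0⟩ := Submodule.exists_dual_map_eq_bot_of_lt_top hlt inferInstance
  apply hf
  have h0 : ∀ v, f (lb_J p x v) = 0 := by
    intro v
    have : f (lb_J p x v) ∈ (LinearMap.range (lb_J p x)).map f :=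
      Submodule.mem_map_of_mem (LinearMap.mem_range_self _ v)
    rw [hf0] at this
    exact (Submodule.mem_bot ℂ).1 this
  have hexp : ∀ w : Fin r → ℂ, f w = ∑ a, f (Pi.single a 1) * w a := by
    intro w
    conv_lhs => rw [← Finset.univ_sum_single w, map_sum]
    refine Finset.sum_congr rfl fun a _ => ?_
    have : (Pi.single a (w a) : Fin r → ℂ) = w a • (Pi.single a (1 : ℂ) : Fin r → ℂ) := by
      rw [← Pi.single_smul, smul_eq_mul, mul_one]
    rw [this, map_smul, smul_eq_mul, mul_comm]
  have hsum : ∑ a, f (Pi.single a 1) • dpolL (p a) x = 0 := by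
    ext v
    rw [LinearMap.comp_apply, LinearMap.sum_apply]
    have := h0 (LinearMap.single ℂ (fun _ => ℂ) v 1)
    rw [hexp] at this
    simp only [LinearMap.smul_apply, smul_eq_mul]
    exact this
  have hz := Fintype.linearIndependent_iff.1 h (fun a => f (Pi.single a 1)) hsum
  ext a
  simp [hz]

end

theorem st_LB : ST_LB := by
  intro κ _ S m h hprime hex hm x0 hx0
  classical
  set s : Set (Module.Dual ℂ (κ → ℂ)) := {l | ∃ p ∈ vanishingIdeal ℂ S, dpolL p x0 = l} with hs
  obtain ⟨r, hr, f, hf, hspan, hind⟩ : ∃ r, Module.finrank ℂ (Submodule.span ℂ s) = r ∧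
      ∃ f : Fin r → Module.Dual ℂ (κ → ℂ), (∀ i, f i ∈ s) ∧
        Submodule.span ℂ (Set.range f) = Submodule.span ℂ s ∧ LinearIndependent ℂ f :=
    ⟨_, rfl, Submodule.exists_fun_fin_finrank_span_eq ℂ s⟩
  choose p hpI hpf using hf
  have hind' : LinearIndependent ℂ (fun a => dpolL (p a) x0) := by
    have : (fun a => dpolL (p a) x0) = f := _root_.funext hpf
    rw [this]
    exact hind
  have hsurj := lb_surj p x0 hind'
  choose v hv using fun b : Fin r => hsurj (Pi.single b 1)
  -- the polynomial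
  set P : Matrix (Fin r) (Fin r) (MvPolynomial κ ℂ) :=
    Matrix.of (fun a b => ∑ i, pderiv i (p a) * C (v b i)) with hP
  have hPe : ∀ x, eval x P.det = (Matrix.of (fun a b => dpol (p a) x (v b))).det := by
    intro x
    rw [RingHom.map_det]
    congr 1
    ext a b
    rw [RingHom.mapMatrix_apply, Matrix.map_apply, hP, Matrix.of_apply, Matrix.of_apply, map_sum,
      dpol]
    exact Finset.sum_congr rfl fun i _ => by rw [map_mul, eval_C]
  have hmu0 : eval x0 P.det = 1 := by
    rw [hPe]
    have : (Matrix.of (fun a b => dpol (p a) x0 (v b)) : Matrix (Fin r) (Fin r) ℂ) = 1 := by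
      ext a b
      rw [Matrix.of_apply, ← lb_J_apply, hv, Pi.single_apply, Matrix.one_apply]
    rw [this, Matrix.det_one]
  obtain ⟨x, hxS, hx⟩ : ∃ x ∈ S, eval x (P.det * h) ≠ 0 := by
    by_contra hcon
    push Not at hcon
    have hmem : P.det * h ∈ vanishingIdeal ℂ S := mem_vI.2 hcon
    rcases hprime.mem_or_mem hmem with h1 | h1
    · have := mem_vI.1 h1 x0 hx0
      rw [hmu0] at this
      exact one_ne_zero this
    · obtain ⟨y, hy, hy0⟩ := hex
      exact hy0 (mem_vI.1 h1 y hy)
  rw [map_mul] at hx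
  have hx1 : eval x P.det ≠ 0 := left_ne_zero_of_mul hx
  have hx2 : eval x h ≠ 0 := right_ne_zero_of_mul hx
  have hsx : Function.Surjective (lb_J p x) := by
    intro w
    rw [hPe] at hx1
    have hu : IsUnit (Matrix.of (fun a b => dpol (p a) x (v b))).det := isUnit_iff_ne_zero.2 hx1
    set A : Matrix (Fin r) (Fin r) ℂ := Matrix.of (fun a b => dpol (p a) x (v b)) with hA
    refine ⟨∑ b, (A⁻¹.mulVec w) b • v b, ?_⟩
    funext a
    rw [map_sum, Finset.sum_apply]
    have h1 : ∀ b, (lb_J p x ((A⁻¹.mulVec w) b • v b)) a = A a b * (A⁻¹.mulVec w) b := by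
      intro b
      rw [map_smul, Pi.smul_apply, lb_J_apply, smul_eq_mul, mul_comm, hA, Matrix.of_apply]
    rw [Finset.sum_congr rfl fun b _ => h1 b]
    have h2 : A.mulVec (A⁻¹.mulVec w) = w := by
      rw [Matrix.mulVec_mulVec, Matrix.mul_nonsing_inv A hu, Matrix.one_mulVec]
    exact congrFun h2 a
  have hker : Module.finrank ℂ (tsp S x) + r ≤ Module.finrank ℂ (κ → ℂ) := by
    have h1 : tsp S x ≤ LinearMap.ker (lb_J p x) := by
      intro u hu
      rw [LinearMap.mem_ker]
      funext a
      exact hu (p a) (hpI a)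
    have h2 := Submodule.finrank_mono h1
    have h3 := LinearMap.finrank_range_add_finrank_ker (lb_J p x)
    rw [LinearMap.range_eq_top.2 hsx, finrank_top, Module.finrank_fin_fun] at h3
    omega
  have hco : Module.finrank ℂ (κ → ℂ) ≤ Module.finrank ℂ (tsp S x0) + r := by
    have h1 : (Submodule.span ℂ s).dualCoannihilator ≤ tsp S x0 := by
      intro u hu q hq
      rw [Submodule.mem_dualCoannihilator] at hu
      exact hu (dpolL q x0) (Submodule.subset_span ⟨q, hq, rfl⟩)
    have h2 := Submodule.finrank_mono h1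
    have h3 := Subspace.finrank_add_finrank_dualCoannihilator_eq (Submodule.span ℂ s)
    omega
  have := hm x hxS hx2
  omega

end Pool.Agent.Helper87.VM
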